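import Pool.Agent.H409_AG.PartA
import Pool.Agent.H409_AG.PartB
import Pool.Agent.H409_AG.PartC
import Pool.Agent.Helper636_AG.AbAsm
import Pool.Agent.Helper71.FSig
import Pool.Agent.Helper71.LR.Nfr

/-!
# `ℵ_ω`-free definable abelian groups on the reals: the four classes

The answer to the question, for each of the four classes: ZFC proves `S_(a)` (`F_σ` groups), and it
does not prove `S_(b)` (Borel), `S_(c)` (analytic) and `S_(d)` (projective, in `L(ℝ)`).

* Part (a) is a theorem of ZFC about groups with underlying set `ℝ` (`FSigmaTheorem`).
* Parts (b) and (c): starting with any model of ZFC, the first statement gives an extension with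
  the continuum hypothesis; the second one gives a further extension with the continuum hypothesis
  and a ladder system on a stationary subset of `ℵ_{ω+1}` which is free on each bounded part; the
  third one gives a further extension, with the same cardinals, in which some closed graph on the
  Baire space has an orientation with countable outdegrees on each family of fewer than `ℵ_ω`
  points, but not on all families; and by the fourth one there is in this model an abelian group
  with underlying set `ℝ` whose graph is Borel and analytic, which is `ℵ_ω`-free and not free.
  This part is the theorem of the starting file `BorelAnalyticClasses`, it is repeated here because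
  it belongs to the answer. The forcing relation is the one of `Pool.Agent.Helper669.Forcing`: a
  sentence about the extension is the set of the conditions which force it.
* Part (d): in the inner model `N = L(ℝ)` of a countable transitive model `W` of ZFC there is an
  abelian group on the reals of `N`, with projective graph, which is `ℵ_ω`-free in `N` and not free
  in `N` (`ProjectiveClass`).
-/

set_option autoImplicit false

namespace Pool.Agent.Results.MP_e75763_lc.AllFourClasses

open Cardinal Pool.Agent.Helper669.Forcing Pool.Agent.H409_AG Pool.Agent.Helper636_AG.Ab

/-- The four classes. (a) Every abelian group with underlying set `ℝ` and an `F_σ` graph which is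
`ℵ_ω`-free is free. (b), (c) It is consistent with ZFC that some abelian group with underlying set
`ℝ` and a Borel and analytic graph is `ℵ_ω`-free and not free: the continuum hypothesis can be
forced; under the continuum hypothesis one can force the continuum hypothesis together with a
ladder system, preserving the cardinals up to `ℵ_{ω+1}`; under the continuum hypothesis, if there
is a ladder system, one can force the existence of an incompact closed graph, preserving cardinals;
and if there is an incompact closed graph, then there is such a group. (d) There are a countable
transitive model `W` of ZFC and its inner model `N = L(ℝ)` such that the statement `S_(d)` fails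
in `N`. -/
theorem result :
    (∀ G : AddCommGroup ℝ, IsFSigma (graph G) → KappaFree (ℵ_ Ordinal.omega0) G →
      Module.Free ℤ (Carrier G)) ∧
    ((∃ (Q : Type) (_ : Preorder Q), Nonempty Q ∧ ∀ q : Q,
        q ∈ ContinuumLe Q (ℵ₁ : Cardinal.{0}).out) ∧
      (ContinuumHyp → ∃ (Q : Type) (_ : Preorder Q), Nonempty Q ∧ ∀ q : Q,
        q ∈ ContinuumLe Q (ℵ₁ : Cardinal.{0}).out ∧
          q ∈ CardinalsPreservedTo Q (ℵ_ (Ordinal.omega0 + 1)) ∧ q ∈ LadderN Q) ∧
      (ContinuumHyp → Ladder → ∃ (Q : Type) (_ : Preorder Q), Nonempty Q ∧ ∀ q : Q,
        q ∈ CardinalsPreserved.{0, 0} Q ∧ q ∈ IncompactN Q) ∧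
      (Incompact → ∃ G : AddCommGroup ℝ, MeasurableSet (graph G) ∧
        MeasureTheory.AnalyticSet (graph G) ∧ KappaFree (ℵ_ Ordinal.omega0) G ∧
          ¬ Module.Free ℤ (Carrier G))) ∧
    (∃ W N : Set ZFSet.{0}, W.Countable ∧ Pool.Agent.W868.IsZFC W ∧
      Pool.Agent.Helper71.LR.IsLR W N ∧ ¬ Pool.Agent.Helper71.LR.SD N) := by
  refine ⟨fun G hG h => ?_, ⟨ch_forced, ladder_forced, graph_forced, fun h => ?_⟩,
    Pool.Agent.Helper71.LR.main⟩
  · obtain ⟨H, hH, hno⟩ := Pool.Agent.Helper71.FSig.exists_countable_not_free G hG
    refine absurd (h H ?_) hno
    have h1 : #H ≤ ℵ₀ := Cardinal.mk_le_aleph0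
    refine h1.trans_lt ?_
    rw [← Cardinal.aleph_zero]
    exact Cardinal.aleph_lt_aleph.2 Ordinal.omega0_pos
  · obtain ⟨G, hG, hfree, hno⟩ := Pool.Agent.Helper636_AG.AbD.abelian_group_of_incompact h
    exact ⟨G, hG, hG.analyticSet, hfree, hno⟩

end Pool.Agent.Results.MP_e75763_lc.AllFourClasses
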