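import Pool.Agent.Helper71.FSig

/-!
# Part (a): the statement for `F_σ` groups on the real line is a theorem of ZFC

The definitions are in `Pool.Agent.Helper636_AG.AbDefs`: `Carrier G` is the abelian group `G` with
underlying set `ℝ`, `graph G` is the graph of its operation as a subset of `ℝ × ℝ × ℝ`, `IsFSigma`
says that a subset of `ℝ × ℝ × ℝ` is a countable union of closed sets, and `KappaFree κ G` says
that every subgroup of `G` of cardinality less than `κ` is free.

The proof. The real line is `σ`-compact, so an `F_σ` graph is a countable union of compact sets; by
the Baire category theorem the operation is continuous, as a real function of two real variables,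
on some open rectangle `I × J`. Take `a ∈ I`. By the intermediate value theorem, for all `x > a`
near `a` there is `x'` between `a` and `x` with `x - a = 2 (x' - a)` in `G`. So `x - a ≠ 0` can be
halved again and again, and it lies in a countable subgroup which is not free.
-/

set_option autoImplicit false

namespace Pool.Agent.Results.MP_e75763_lc.FSigmaTheorem

open Cardinal Pool.Agent.Helper636_AG.Ab

/-- Every abelian group with underlying set `ℝ` and an `F_σ` graph has a countable subgroup which
is not free. In particular (and this is the statement `S_(a)` of the problem), every abelian group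
with underlying set `ℝ` and an `F_σ` graph which is `ℵ_ω`-free is free. -/
theorem result : ∀ G : AddCommGroup ℝ, IsFSigma (graph G) →
    (∃ H : AddSubgroup (Carrier G), Countable H ∧ ¬ Module.Free ℤ H) ∧
      (KappaFree (ℵ_ Ordinal.omega0) G → Module.Free ℤ (Carrier G)) := by
  intro G hG
  obtain ⟨H, hH, hno⟩ := Pool.Agent.Helper71.FSig.exists_countable_not_free G hG
  refine ⟨⟨H, hH, hno⟩, fun h => absurd (h H ?_) hno⟩
  have h1 : #H ≤ ℵ₀ := Cardinal.mk_le_aleph0
  refine h1.trans_lt ?_
  rw [← Cardinal.aleph_zero]
  exact Cardinal.aleph_lt_aleph.2 Ordinal.omega0_pos

end Pool.Agent.Results.MP_e75763_lc.FSigmaTheorem
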