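import Pool.Agent.Helper71.LR.Nfr

/-!
# Part (d): it is consistent that a projective `ℵ_ω`-free abelian group is not free in `L(ℝ)`

The definitions are in `Pool.Agent.Helper71.LR.Defs`: `IsLR W N` says that `N` is the inner model
`L(ℝ)` of `W`, and `SD N` is the statement `S_(d)` interpreted in `N`.

The proof. Let `V` be a countable transitive model of ZFC which is constructible from a set of
hereditarily finite sets, let `W` be the extension of `V` by uncountably many Cohen reals, and let
`N` be the `L(ℝ)` of `W`. In `N` consider the group of all finitely supported functions from the
reals to the integers whose sum over each class of the relation `E₀` (equality of two reals up to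
finitely many places) is even. It is isomorphic in `N` to a projective group on the reals. A
subgroup of it in `N` which injects into an aleph lives on a well-orderable set of reals, where one
can choose representatives of the `E₀` classes, so it is free. From a basis of the whole group one
gets in `N` a map that sends each real `x` to a finite set `F x` of reals such that `F x = F y` if
and only if `x` and `y` are equal up to finitely many places, and a homogeneity argument for the
Cohen forcing shows that there is no such map in `N`.
-/

set_option autoImplicit false

namespace Pool.Agent.Results.MP_e75763_lc.ProjectiveClass

open Pool.Agent.W868 Pool.Agent.Helper71.LR

/-- There are a countable transitive model `W` of ZFC and its inner model `N`, the `L(ℝ)` of `W`,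
such that the statement `S_(d)` fails in `N`: some abelian group on the reals of `N`, with a
projective graph, is `ℵ_ω`-free in `N` and not free in `N`. -/
theorem result : ∃ W N : Set ZFSet.{0}, W.Countable ∧ IsZFC W ∧ IsLR W N ∧ ¬ SD N := main

end Pool.Agent.Results.MP_e75763_lc.ProjectiveClass
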